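import Mathlib

namespace Pool.Agent.Results.MP_85e89d_gt.NowhereSmooth

open Set

/-- The half-open unit segment starting at `p` in the direction `v`. -/
def seg (p v : EuclideanSpace ℝ (Fin 2)) : Set (EuclideanSpace ℝ (Fin 2)) :=
  (fun t : ℝ => p + t • v) '' Ico 0 1

open Classical in
/-- The offset used on the horizontal line of height `y`. -/
noncomputable def off (y : ℝ) : ℝ :=
  if h : ∃ a : ℚ, ∃ b : ℚ, y = b + a * √2 then (h.choose : ℚ) else 0

lemma off_eq (a b : ℚ) : off (b + a * √2) = a := by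
  have h : ∃ a' : ℚ, ∃ b' : ℚ, (b + a * √2 : ℝ) = b' + a' * √2 := ⟨a, b, rfl⟩
  unfold off
  rw [dif_pos h]
  obtain ⟨b', hb'⟩ := h.choose_spec
  set a' := h.choose
  by_contra hne
  have h1 : ((a' - a : ℚ) : ℝ) ≠ 0 := by
    push_cast
    exact sub_ne_zero.2 hne
  apply irrational_sqrt_two
  refine ⟨(b - b') / (a' - a), ?_⟩
  rw [Rat.cast_div, div_eq_iff h1]
  push_cast
  linarith

lemma mem_seg (p z : EuclideanSpace ℝ (Fin 2)) :
    z ∈ seg p !₂[1, 0] ↔ z 1 = p 1 ∧ p 0 ≤ z 0 ∧ z 0 < p 0 + 1 := by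
  constructor
  · rintro ⟨t, ⟨h0, h1⟩, rfl⟩
    simp [h0, h1]
  · rintro ⟨h1, h2, h3⟩
    refine ⟨z 0 - p 0, ⟨by linarith, by linarith⟩, ?_⟩
    ext i
    fin_cases i <;> simp [h1]

/-- The plane is partitioned into half-open straight segments of length one whose endpoints
meet every nonempty open set, so the partition is smooth at no point. -/
theorem result : ∃ (ι : Type) (p v : ι → EuclideanSpace ℝ (Fin 2)),
    (∀ i, ‖v i‖ = 1) ∧ (Pairwise fun i j => Disjoint (seg (p i) (v i)) (seg (p j) (v j))) ∧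
    (⋃ i, seg (p i) (v i)) = univ ∧
    ∀ (x : EuclideanSpace ℝ (Fin 2)) (N : Set (EuclideanSpace ℝ (Fin 2))), IsOpen N → x ∈ N →
      ∃ i, p i ∈ N := by
  refine ⟨ℤ × ℝ, fun i => !₂[i.1 + off i.2, i.2], fun _ => !₂[1, 0], fun _ => ?_, ?_, ?_, ?_⟩
  · simp [EuclideanSpace.norm_eq, Fin.sum_univ_two]
  · rintro ⟨n, y⟩ ⟨n', y'⟩ hne
    rw [Set.disjoint_left]
    intro z h1 h2
    rw [mem_seg] at h1 h2
    simp only [Matrix.cons_val_one, Matrix.cons_val_zero] at h1 h2
    have hy : y = y' := h1.1.symm.trans h2.1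
    subst hy
    have e1 : (n : ℝ) < n' + 1 := by linarith [h1.2.1, h2.2.2]
    have e2 : (n' : ℝ) < n + 1 := by linarith [h2.2.1, h1.2.2]
    have e3 : n < n' + 1 := by exact_mod_cast e1
    have e4 : n' < n + 1 := by exact_mod_cast e2
    exact hne (by rw [show n = n' by omega])
  · rw [eq_univ_iff_forall]
    intro z
    refine mem_iUnion.2 ⟨(⌊z 0 - off (z 1)⌋, z 1), ?_⟩
    rw [mem_seg]
    simp only [Matrix.cons_val_one, Matrix.cons_val_zero, true_and]
    exact ⟨by linarith [Int.floor_le (z 0 - off (z 1))],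
      by linarith [Int.lt_floor_add_one (z 0 - off (z 1))]⟩
  · intro x N hN hx
    obtain ⟨ε, hε, hb⟩ := Metric.isOpen_iff.1 hN x hx
    obtain ⟨a, ha1, ha2⟩ := exists_rat_btwn (show x 0 < x 0 + ε / 2 by linarith)
    obtain ⟨b, hb1, hb2⟩ := exists_rat_btwn
      (show x 1 - a * √2 < x 1 - a * √2 + ε / 2 by linarith)
    refine ⟨(0, b + a * √2), hb ?_⟩
    rw [Metric.mem_ball, EuclideanSpace.dist_eq, Fin.sum_univ_two, Real.sqrt_lt' hε]
    simp only [Matrix.cons_val_one, Matrix.cons_val_zero, off_eq, Int.cast_zero, zero_add,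
      Real.dist_eq, sq_abs]
    nlinarith

end Pool.Agent.Results.MP_85e89d_gt.NowhereSmooth
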